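import Pool.Agent.Lib.Prob48.Basic

/-!
Freedman type inequality for adapted processes on finite weighted product spaces, and the
Bernstein-McDiarmid inequality for Lipschitz functions.
-/

set_option autoImplicit false
set_option linter.unusedSectionVars false

namespace Pool.Agent.Lib.Prob48

open Finset

variable {V : Type*} [Fintype V] [DecidableEq V] {α : V → Type*} [∀ v, Fintype (α v)]
variable (μ : Weights α)

lemma exp_le_one_add_sq {x : ℝ} (hx : x ≤ 1) : Real.exp x ≤ 1 + x + x ^ 2 := by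
  rcases le_or_gt (-1) x with h | h
  · have := Real.abs_exp_sub_one_sub_id_le (abs_le.2 ⟨h, hx⟩)
    linarith [(abs_le.1 this).2]
  · have h1 : Real.exp x ≤ 1 := Real.exp_le_one_iff.2 (by linarith)
    nlinarith

/-- The supermartingale inequality along a sequence of resampled coordinates. -/
theorem Weights.E_le_of_avg (n : ℕ) (c : ℕ → V) (Z : ℕ → (∀ v, α v) → ℝ)
    (h : ∀ k < n, ∀ ω, μ.avg (c k) (Z (k + 1)) ω ≤ Z k ω) : μ.E (Z n) ≤ μ.E (Z 0) := by
  induction n with
  | zero => exact le_rfl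
  | succ n ih =>
    refine le_trans ?_ (ih fun k hk => h k (hk.trans (Nat.lt_succ_self n)))
    rw [← μ.E_avg (c n)]
    exact μ.E_mono (h n (Nat.lt_succ_self n))

/-- Exponential moment step. -/
lemma Weights.avg_exp_le (v : V) (g : (∀ v, α v) → ℝ) (x b s2 t : ℝ) (ω : ∀ v, α v)
    (ht : 0 ≤ t) (htb : t * b ≤ 1)
    (hb : ∀ a, 0 < μ.w v a → g (Function.update ω v a) - x ≤ b)
    (hm : μ.avg v g ω ≤ x)
    (hs : ∑ a, μ.w v a * (g (Function.update ω v a) - x) ^ 2 ≤ s2) :
    μ.avg v (fun ω => Real.exp (t * g ω)) ω ≤ Real.exp (t * x + t ^ 2 * s2) := by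
  have h1 : ∀ a, μ.w v a * Real.exp (t * (g (Function.update ω v a) - x))
      ≤ μ.w v a * (1 + t * (g (Function.update ω v a) - x)
        + (t * (g (Function.update ω v a) - x)) ^ 2) := by
    intro a
    rcases (μ.nonneg v a).eq_or_lt with h0 | h0
    · simp [← h0]
    · refine mul_le_mul_of_nonneg_left (exp_le_one_add_sq ?_) h0.le
      exact (mul_le_mul_of_nonneg_left (hb a h0) ht).trans htb
  have h2 : ∑ a, μ.w v a * Real.exp (t * (g (Function.update ω v a) - x)) ≤ 1 + t ^ 2 * s2 := by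
    calc ∑ a, μ.w v a * Real.exp (t * (g (Function.update ω v a) - x))
        ≤ ∑ a, μ.w v a * (1 + t * (g (Function.update ω v a) - x)
          + (t * (g (Function.update ω v a) - x)) ^ 2) := sum_le_sum fun a _ => h1 a
      _ = ∑ a, μ.w v a + t * (μ.avg v g ω - (∑ a, μ.w v a) * x)
          + t ^ 2 * ∑ a, μ.w v a * (g (Function.update ω v a) - x) ^ 2 := by
          unfold Weights.avg
          rw [sum_mul, ← sum_sub_distrib, mul_sum, mul_sum, ← sum_add_distrib, ← sum_add_distrib]
          exact sum_congr rfl fun a _ => by ring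
      _ ≤ 1 + t ^ 2 * s2 := by
          rw [μ.sum_one, one_mul]
          nlinarith [mul_nonneg ht (sub_nonneg.2 hm),
            mul_le_mul_of_nonneg_left hs (sq_nonneg t)]
  have h3 : μ.avg v (fun ω => Real.exp (t * g ω)) ω
      = Real.exp (t * x) * ∑ a, μ.w v a * Real.exp (t * (g (Function.update ω v a) - x)) := by
    unfold Weights.avg
    rw [mul_sum]
    refine sum_congr rfl fun a _ => ?_
    show μ.w v a * Real.exp (t * g (Function.update ω v a)) = _
    rw [show t * g (Function.update ω v a) = t * x + t * (g (Function.update ω v a) - x) by ring,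
      Real.exp_add]
    ring
  rw [h3, Real.exp_add]
  refine mul_le_mul_of_nonneg_left (h2.trans ?_) (Real.exp_pos _).le
  linarith [Real.add_one_le_exp (t ^ 2 * s2)]

/-- Freedman inequality with truncation, exponential form. `X k` is the process, `c k` the
coordinate revealed at step `k`, `G k` the event that the process behaves well at step `k`. -/
theorem Weights.freedman_exp (n : ℕ) (c : ℕ → V) (X : ℕ → (∀ v, α v) → ℝ)
    (G : ℕ → (∀ v, α v) → Prop) (s2 : ℕ → ℝ) (x₀ b s t : ℝ)
    (hX0 : ∀ ω, X 0 ω ≤ x₀)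
    (hG : ∀ k < n, ∀ j ≤ k, ∀ ω a, G j (Function.update ω (c k) a) ↔ G j ω)
    (hm : ∀ k < n, ∀ ω, G k ω → μ.avg (c k) (X (k + 1)) ω ≤ X k ω)
    (hb : ∀ k < n, ∀ ω, G k ω → ∀ a, 0 < μ.w (c k) a →
      X (k + 1) (Function.update ω (c k) a) - X k ω ≤ b)
    (hs : ∀ k < n, ∀ ω, G k ω →
      ∑ a, μ.w (c k) a * (X (k + 1) (Function.update ω (c k) a) - X k ω) ^ 2 ≤ s2 k)
    (ht : 0 ≤ t) (htb : t * b ≤ 1) :
    μ.P (fun ω => x₀ + s ≤ X n ω ∧ ∀ k < n, G k ω)
      ≤ Real.exp (-(t * s) + t ^ 2 * ∑ k ∈ range n, s2 k) := by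
  classical
  set Z : ℕ → (∀ v, α v) → ℝ := fun k ω =>
    if ∀ j < k, G j ω then
      Real.exp (t * (X k ω - x₀) - t ^ 2 * ∑ j ∈ range k, s2 j) else 0 with hZ
  have hZstep : ∀ k < n, ∀ ω, μ.avg (c k) (Z (k + 1)) ω ≤ Z k ω := by
    intro k hk ω
    have hinv : ∀ a, (∀ j < k + 1, G j (Function.update ω (c k) a)) ↔ ∀ j < k + 1, G j ω := by
      intro a
      exact forall_congr' fun j => forall_congr' fun hj =>
        hG k hk j (Nat.lt_succ_iff.1 hj) ω a
    by_cases hall : ∀ j < k + 1, G j ω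
    · have hall' : ∀ j < k, G j ω := fun j hj => hall j (hj.trans (Nat.lt_succ_self k))
      have hGk : G k ω := hall k (Nat.lt_succ_self k)
      have e1 : μ.avg (c k) (Z (k + 1)) ω
          = Real.exp (-(t * x₀) - t ^ 2 * ∑ j ∈ range (k + 1), s2 j)
            * μ.avg (c k) (fun ω => Real.exp (t * X (k + 1) ω)) ω := by
        unfold Weights.avg
        rw [mul_sum]
        refine sum_congr rfl fun a _ => ?_
        simp only [hZ]
        rw [if_pos ((hinv a).2 hall)]
        rw [show t * (X (k + 1) (Function.update ω (c k) a) - x₀)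
            - t ^ 2 * ∑ j ∈ range (k + 1), s2 j
            = (-(t * x₀) - t ^ 2 * ∑ j ∈ range (k + 1), s2 j)
              + t * X (k + 1) (Function.update ω (c k) a) by ring, Real.exp_add]
        ring
      have e2 := μ.avg_exp_le (c k) (X (k + 1)) (X k ω) b (s2 k) t ω ht htb
        (hb k hk ω hGk) (hm k hk ω hGk) (hs k hk ω hGk)
      rw [e1]
      calc Real.exp (-(t * x₀) - t ^ 2 * ∑ j ∈ range (k + 1), s2 j)
            * μ.avg (c k) (fun ω => Real.exp (t * X (k + 1) ω)) ω
          ≤ Real.exp (-(t * x₀) - t ^ 2 * ∑ j ∈ range (k + 1), s2 j)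
            * Real.exp (t * X k ω + t ^ 2 * s2 k) :=
            mul_le_mul_of_nonneg_left e2 (Real.exp_pos _).le
        _ = Z k ω := by
            simp only [hZ]
            rw [if_pos hall', ← Real.exp_add, sum_range_succ]
            congr 1
            ring
    · have e1 : μ.avg (c k) (Z (k + 1)) ω = 0 := by
        unfold Weights.avg
        refine sum_eq_zero fun a _ => ?_
        simp only [hZ]
        rw [if_neg (fun h => hall ((hinv a).1 h)), mul_zero]
      rw [e1]
      simp only [hZ]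
      split_ifs
      · exact (Real.exp_pos _).le
      · exact le_rfl
  have hE := μ.E_le_of_avg n c Z hZstep
  have hE0 : μ.E (Z 0) ≤ 1 := by
    rw [← μ.E_const 1]
    refine μ.E_mono fun ω => ?_
    simp only [hZ]
    rw [if_pos (by simp)]
    rw [← Real.exp_zero]
    refine Real.exp_le_exp.2 ?_
    simp only [range_zero, sum_empty, mul_zero, sub_zero]
    exact mul_nonpos_of_nonneg_of_nonpos ht (by linarith [hX0 ω])
  have hP := μ.P_le_of_le (A := fun ω => x₀ + s ≤ X n ω ∧ ∀ k < n, G k ω) (f := Z n)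
    (Real.exp (t * s - t ^ 2 * ∑ k ∈ range n, s2 k)) (Real.exp_pos _)
    (fun ω => by
      simp only [hZ]
      split_ifs
      · exact (Real.exp_pos _).le
      · exact le_rfl)
    (fun ω hω => by
      simp only [hZ]
      rw [if_pos hω.2]
      refine Real.exp_le_exp.2 ?_
      have := mul_le_mul_of_nonneg_left (by linarith [hω.1] : s ≤ X n ω - x₀) ht
      linarith)
  calc μ.P (fun ω => x₀ + s ≤ X n ω ∧ ∀ k < n, G k ω)
      ≤ μ.E (Z n) / Real.exp (t * s - t ^ 2 * ∑ k ∈ range n, s2 k) := hP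
    _ ≤ 1 / Real.exp (t * s - t ^ 2 * ∑ k ∈ range n, s2 k) :=
        div_le_div_of_nonneg_right (hE.trans hE0) (Real.exp_pos _).le
    _ = Real.exp (-(t * s) + t ^ 2 * ∑ k ∈ range n, s2 k) := by
        rw [one_div, ← Real.exp_neg]
        congr 1
        ring

/-- Optimised choice of the parameter. -/
lemma exists_param (b s W : ℝ) (hb : 0 < b) (hs : 0 ≤ s) (hW : 0 < W) :
    ∃ t : ℝ, 0 ≤ t ∧ t * b ≤ 1 ∧
      -(t * s) + t ^ 2 * W ≤ -min (s ^ 2 / (4 * W)) (s / (2 * b)) := by
  rcases le_or_gt (s * b) (2 * W) with h | h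
  · refine ⟨s / (2 * W), by positivity, ?_, ?_⟩
    · rw [div_mul_eq_mul_div, div_le_one (by positivity)]
      exact h
    · have e : -(s / (2 * W) * s) + (s / (2 * W)) ^ 2 * W = -(s ^ 2 / (4 * W)) := by
        field_simp
        ring
      rw [e]
      exact neg_le_neg (min_le_left _ _)
  · refine ⟨1 / b, by positivity, by rw [one_div, inv_mul_cancel₀ hb.ne'], ?_⟩
    have e : -(1 / b * s) + (1 / b) ^ 2 * W ≤ -(s / (2 * b)) := by
      have h1 : (1 / b) ^ 2 * W = W / b / b := by field_simp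
      have h2 : W / b ≤ s / 2 := by
        rw [div_le_iff₀ hb]
        linarith
      have h3 : W / b / b ≤ s / 2 / b := div_le_div_of_nonneg_right h2 hb.le
      have h4 : s / 2 / b = s / (2 * b) := by rw [div_div]
      have h5 : 1 / b * s = s / (2 * b) + s / (2 * b) := by field_simp; ring
      rw [h1, h5]
      linarith
    exact e.trans (neg_le_neg (min_le_right _ _))

/-- Freedman inequality with truncation. -/
theorem Weights.freedman (n : ℕ) (c : ℕ → V) (X : ℕ → (∀ v, α v) → ℝ)
    (G : ℕ → (∀ v, α v) → Prop) (s2 : ℕ → ℝ) (x₀ b s W : ℝ)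
    (hX0 : ∀ ω, X 0 ω ≤ x₀)
    (hG : ∀ k < n, ∀ j ≤ k, ∀ ω a, G j (Function.update ω (c k) a) ↔ G j ω)
    (hm : ∀ k < n, ∀ ω, G k ω → μ.avg (c k) (X (k + 1)) ω ≤ X k ω)
    (hb : ∀ k < n, ∀ ω, G k ω → ∀ a, 0 < μ.w (c k) a →
      X (k + 1) (Function.update ω (c k) a) - X k ω ≤ b)
    (hs2 : ∀ k < n, ∀ ω, G k ω →
      ∑ a, μ.w (c k) a * (X (k + 1) (Function.update ω (c k) a) - X k ω) ^ 2 ≤ s2 k)
    (hb0 : 0 < b) (hs : 0 ≤ s) (hW : 0 < W) (hsW : ∑ k ∈ range n, s2 k ≤ W) :
    μ.P (fun ω => x₀ + s ≤ X n ω ∧ ∀ k < n, G k ω)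
      ≤ Real.exp (-min (s ^ 2 / (4 * W)) (s / (2 * b))) := by
  obtain ⟨t, ht, htb, h⟩ := exists_param b s W hb0 hs hW
  refine (μ.freedman_exp n c X G s2 x₀ b s t hX0 hG hm hb hs2 ht htb).trans
    (Real.exp_le_exp.2 (le_trans ?_ h))
  have := mul_le_mul_of_nonneg_left hsW (sq_nonneg t)
  linarith

/-- Iterated resampling over a list of coordinates. -/
noncomputable def Weights.cond (l : List V) (f : (∀ v, α v) → ℝ) : (∀ v, α v) → ℝ :=
  l.foldr (fun v g => μ.avg v g) f

lemma Weights.cond_nil (f : (∀ v, α v) → ℝ) : μ.cond [] f = f := rfl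

lemma Weights.cond_cons (v : V) (l : List V) (f : (∀ v, α v) → ℝ) :
    μ.cond (v :: l) f = μ.avg v (μ.cond l f) := rfl

lemma Weights.E_cond (l : List V) (f : (∀ v, α v) → ℝ) : μ.E (μ.cond l f) = μ.E f := by
  induction l with
  | nil => rfl
  | cons v l ih => rw [μ.cond_cons, μ.E_avg, ih]

lemma Weights.cond_dependsOn (l : List V) (f : (∀ v, α v) → ℝ) :
    DependsOn (μ.cond l f) {v | v ∉ l} := by
  induction l with
  | nil =>
    intro x y hxy
    have : x = y := funext fun v => hxy v (by simp)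
    rw [this]
  | cons v l ih =>
    rw [μ.cond_cons]
    refine μ.avg_dependsOn (fun x y hxy => ih fun u hu => ?_)
    by_cases huv : u = v
    · exact hxy u (Or.inl huv)
    · exact hxy u (Or.inr (by simpa [huv] using hu))

lemma Weights.cond_univ (f : (∀ v, α v) → ℝ) (ω : ∀ v, α v) :
    μ.cond (univ : Finset V).toList f ω = μ.E f := by
  have h : ∀ ω', μ.cond (univ : Finset V).toList f ω' = μ.cond (univ : Finset V).toList f ω :=
    fun ω' => μ.cond_dependsOn _ f fun v hv => by simp at hv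
  rw [← μ.E_cond (univ : Finset V).toList f, ← μ.E_const (μ.cond (univ : Finset V).toList f ω)]
  congr 1
  funext ω'
  rw [h ω']

/-- Oscillation in one coordinate is not increased by resampling another. -/
lemma Weights.osc_avg {v : V} {f : (∀ v, α v) → ℝ} {c : ℝ} (hc : 0 ≤ c)
    (h : ∀ ω a b, f (Function.update ω v a) - f (Function.update ω v b) ≤ c) (u : V) :
    ∀ ω a b, μ.avg u f (Function.update ω v a) - μ.avg u f (Function.update ω v b) ≤ c := by
  intro ω a b
  unfold Weights.avg
  rw [← sum_sub_distrib]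
  by_cases huv : u = v
  · subst huv
    refine le_trans (le_of_eq ?_) hc
    exact sum_eq_zero fun x _ => by simp
  · calc ∑ x, (μ.w u x * f (Function.update (Function.update ω v a) u x)
          - μ.w u x * f (Function.update (Function.update ω v b) u x))
        ≤ ∑ x, μ.w u x * c := by
          refine sum_le_sum fun x _ => ?_
          rw [← mul_sub, Function.update_comm (Ne.symm huv), Function.update_comm (Ne.symm huv)]
          exact mul_le_mul_of_nonneg_left (h _ a b) (μ.nonneg u x)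
      _ = c := by rw [← sum_mul, μ.sum_one, one_mul]

lemma Weights.osc_cond {v : V} {f : (∀ v, α v) → ℝ} {c : ℝ} (hc : 0 ≤ c)
    (h : ∀ ω a b, f (Function.update ω v a) - f (Function.update ω v b) ≤ c) (l : List V) :
    ∀ ω a b, μ.cond l f (Function.update ω v a) - μ.cond l f (Function.update ω v b) ≤ c := by
  induction l with
  | nil => exact h
  | cons u l ih =>
    rw [μ.cond_cons]
    exact μ.osc_avg hc ih u

/-- Variance of a function of one coordinate that rarely leaves its default value. -/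
lemma Weights.var_le (v : V) (g : (∀ v, α v) → ℝ) (c q : ℝ) (a₀ : α v) (ω : ∀ v, α v)
    (hosc : ∀ a b, g (Function.update ω v a) - g (Function.update ω v b) ≤ c)
    (hq : 1 - μ.w v a₀ ≤ q) :
    ∑ a, μ.w v a * (g (Function.update ω v a) - μ.avg v g ω) ^ 2 ≤ q * c ^ 2 := by
  classical
  set m := μ.avg v g ω with hm
  set y := g (Function.update ω v a₀) with hy
  have h1 : ∑ a, μ.w v a * (g (Function.update ω v a) - m) ^ 2
      ≤ ∑ a, μ.w v a * (g (Function.update ω v a) - y) ^ 2 := by
    have e : ∑ a, μ.w v a * (g (Function.update ω v a) - y) ^ 2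
        = ∑ a, μ.w v a * (g (Function.update ω v a) - m) ^ 2
          + (m - y) ^ 2 + 2 * (m - y) * (μ.avg v g ω - (∑ a, μ.w v a) * m) := by
      have e0 : (m - y) ^ 2 = (∑ a, μ.w v a) * (m - y) ^ 2 := by rw [μ.sum_one, one_mul]
      rw [e0]
      unfold Weights.avg
      rw [sum_mul, sum_mul, ← sum_sub_distrib, mul_sum, ← sum_add_distrib, ← sum_add_distrib]
      exact sum_congr rfl fun a _ => by ring
    rw [e, μ.sum_one, one_mul, ← hm]
    nlinarith [sq_nonneg (m - y)]
  refine h1.trans ?_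
  have h2 : ∀ a, μ.w v a * (g (Function.update ω v a) - y) ^ 2
      ≤ if a = a₀ then 0 else μ.w v a * c ^ 2 := by
    intro a
    split_ifs with h
    · subst h
      simp [hy]
    · refine mul_le_mul_of_nonneg_left ?_ (μ.nonneg v a)
      have h3 := hosc a a₀
      have h4 := hosc a₀ a
      rw [← hy] at h3 h4
      exact sq_le_sq' (by linarith) (by linarith)
  refine (sum_le_sum fun a _ => h2 a).trans ?_
  have e : ∀ a, (if a = a₀ then 0 else μ.w v a * c ^ 2)
      = μ.w v a * c ^ 2 - (if a = a₀ then μ.w v a * c ^ 2 else 0) := by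
    intro a
    split_ifs <;> ring
  simp_rw [e]
  rw [sum_sub_distrib, ← sum_mul, μ.sum_one, one_mul, sum_ite_eq' univ a₀]
  simp only [mem_univ, if_true]
  have := mul_le_mul_of_nonneg_right hq (sq_nonneg c)
  linarith

/-- Exponential moment of a Lipschitz function whose coordinates rarely leave their default
values. -/
theorem Weights.E_exp_le (f : (∀ v, α v) → ℝ) (cl q : V → ℝ) (dflt : ∀ v, α v) (b t : ℝ)
    (hcl0 : ∀ v, 0 ≤ cl v) (hclb : ∀ v, cl v ≤ b)
    (hosc : ∀ v ω a a', f (Function.update ω v a) - f (Function.update ω v a') ≤ cl v)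
    (hq : ∀ v, 1 - μ.w v (dflt v) ≤ q v) (ht : 0 ≤ t) (htb : t * b ≤ 1) :
    μ.E (fun ω => Real.exp (t * f ω)) ≤ Real.exp (t * μ.E f + t ^ 2 * ∑ v, q v * cl v ^ 2) := by
  classical
  have main : ∀ l : List V, ∀ ω, μ.cond l (fun ω => Real.exp (t * f ω)) ω
      ≤ Real.exp (t * μ.cond l f ω + t ^ 2 * (l.map fun v => q v * cl v ^ 2).sum) := by
    intro l
    induction l with
    | nil => intro ω; simp [Weights.cond]
    | cons v l ih =>
      intro ω
      rw [μ.cond_cons, μ.cond_cons, List.map_cons, List.sum_cons]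
      set R := (l.map fun v => q v * cl v ^ 2).sum with hR
      calc μ.avg v (μ.cond l fun ω => Real.exp (t * f ω)) ω
          ≤ μ.avg v (fun ω => Real.exp (t * μ.cond l f ω + t ^ 2 * R)) ω :=
            μ.avg_mono v ih ω
        _ = Real.exp (t ^ 2 * R) * μ.avg v (fun ω => Real.exp (t * μ.cond l f ω)) ω := by
            unfold Weights.avg
            rw [mul_sum]
            refine sum_congr rfl fun a _ => ?_
            show μ.w v a * Real.exp (t * μ.cond l f (Function.update ω v a) + t ^ 2 * R) = _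
            rw [Real.exp_add]
            ring
        _ ≤ Real.exp (t ^ 2 * R)
            * Real.exp (t * μ.avg v (μ.cond l f) ω + t ^ 2 * (q v * cl v ^ 2)) := by
            refine mul_le_mul_of_nonneg_left ?_ (Real.exp_pos _).le
            have hosc' := μ.osc_cond (hcl0 v) (hosc v) l
            refine μ.avg_exp_le v (μ.cond l f) (μ.avg v (μ.cond l f) ω) (cl v) _ t ω ht
              ((mul_le_mul_of_nonneg_left (hclb v) ht).trans htb) (fun a _ => ?_) le_rfl
              (μ.var_le v (μ.cond l f) (cl v) (q v) (dflt v) ω (hosc' ω) (hq v))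
            unfold Weights.avg
            have e1 : μ.cond l f (Function.update ω v a)
                = ∑ a', μ.w v a' * μ.cond l f (Function.update ω v a) := by
              rw [← sum_mul, μ.sum_one, one_mul]
            rw [e1, ← sum_sub_distrib]
            calc ∑ a', (μ.w v a' * μ.cond l f (Function.update ω v a)
                  - μ.w v a' * μ.cond l f (Function.update ω v a'))
                ≤ ∑ a', μ.w v a' * cl v := sum_le_sum fun a' _ => by
                  rw [← mul_sub]
                  exact mul_le_mul_of_nonneg_left (hosc' ω a a') (μ.nonneg v a')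
              _ = cl v := by rw [← sum_mul, μ.sum_one, one_mul]
        _ = Real.exp (t * μ.avg v (μ.cond l f) ω + t ^ 2 * (q v * cl v ^ 2 + R)) := by
            rw [← Real.exp_add]
            congr 1
            ring
  by_cases hne : Nonempty (∀ v, α v)
  · obtain ⟨ω⟩ := hne
    have h := main (univ : Finset V).toList ω
    rw [μ.cond_univ, μ.cond_univ, Finset.sum_map_toList] at h
    exact h
  · exact (hne ⟨dflt⟩).elim

/-- Bernstein-McDiarmid inequality: upper tail of a Lipschitz function on a product space whose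
coordinates take their default values with probability at least `1 - q v`. -/
theorem Weights.bernstein (f : (∀ v, α v) → ℝ) (cl q : V → ℝ) (dflt : ∀ v, α v) (b s W : ℝ)
    (hcl0 : ∀ v, 0 ≤ cl v) (hclb : ∀ v, cl v ≤ b)
    (hosc : ∀ v ω a a', f (Function.update ω v a) - f (Function.update ω v a') ≤ cl v)
    (hq : ∀ v, 1 - μ.w v (dflt v) ≤ q v)
    (hb0 : 0 < b) (hs : 0 ≤ s) (hW : 0 < W) (hsW : ∑ v, q v * cl v ^ 2 ≤ W) :
    μ.P (fun ω => μ.E f + s ≤ f ω) ≤ Real.exp (-min (s ^ 2 / (4 * W)) (s / (2 * b))) := by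
  obtain ⟨t, ht, htb, h⟩ := exists_param b s W hb0 hs hW
  have hE := μ.E_exp_le f cl q dflt b t hcl0 hclb hosc hq ht htb
  refine (μ.P_le_of_le (A := fun ω => μ.E f + s ≤ f ω) (f := fun ω => Real.exp (t * f ω))
    (Real.exp (t * (μ.E f + s))) (Real.exp_pos _) (fun ω => (Real.exp_pos _).le)
    fun ω hω => Real.exp_le_exp.2 (mul_le_mul_of_nonneg_left hω ht)).trans ?_
  rw [div_le_iff₀ (Real.exp_pos _), ← Real.exp_add]
  refine hE.trans (Real.exp_le_exp.2 ?_)
  have := mul_le_mul_of_nonneg_left hsW (sq_nonneg t)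
  linarith

/-- Two sided version. -/
theorem Weights.bernstein_abs (f : (∀ v, α v) → ℝ) (cl q : V → ℝ) (dflt : ∀ v, α v) (b s W : ℝ)
    (hcl0 : ∀ v, 0 ≤ cl v) (hclb : ∀ v, cl v ≤ b)
    (hosc : ∀ v ω a a', f (Function.update ω v a) - f (Function.update ω v a') ≤ cl v)
    (hq : ∀ v, 1 - μ.w v (dflt v) ≤ q v)
    (hb0 : 0 < b) (hs : 0 ≤ s) (hW : 0 < W) (hsW : ∑ v, q v * cl v ^ 2 ≤ W) :
    μ.P (fun ω => s ≤ |f ω - μ.E f|)
      ≤ 2 * Real.exp (-min (s ^ 2 / (4 * W)) (s / (2 * b))) := by
  have h1 := μ.bernstein f cl q dflt b s W hcl0 hclb hosc hq hb0 hs hW hsW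
  have h2 := μ.bernstein (fun ω => -f ω) cl q dflt b s W hcl0 hclb
    (fun v ω a a' => by linarith [hosc v ω a' a]) hq hb0 hs hW hsW
  have e : μ.E (fun ω => -f ω) = -μ.E f := by
    have := μ.E_mul_left (-1) f
    simpa using this
  rw [e] at h2
  have h3 : μ.P (fun ω => s ≤ |f ω - μ.E f|)
      ≤ μ.P (fun ω => μ.E f + s ≤ f ω ∨ -μ.E f + s ≤ -f ω) := by
    refine μ.P_mono fun ω hω => ?_
    rcases le_abs.1 hω with h | h
    · left; linarith
    · right; linarith
  have h4 := μ.P_or_le (fun ω => μ.E f + s ≤ f ω) (fun ω => -μ.E f + s ≤ -f ω)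
  linarith

end Pool.Agent.Lib.Prob48
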