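import Pool.Agent.Lib.Prob48.Basic

/-!
The Lovász local lemma on finite weighted product spaces.
-/

set_option autoImplicit false
set_option linter.unusedSectionVars false

namespace Pool.Agent.Lib.Prob48

open Finset

variable {V : Type*} [Fintype V] [DecidableEq V] {α : V → Type*} [∀ v, Fintype (α v)]
variable (μ : Weights α)

/-- Abstract (lopsided) local lemma: `Γ i` are the neighbours of `i`, and conditioning on avoiding
events that are not neighbours does not raise the probability of `A i` above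
`x i * ∏ (1 - x j)`. -/
theorem Weights.lll_abstract {ι : Type*} [DecidableEq ι] (A : ι → (∀ v, α v) → Prop)
    (Γ : ι → Finset ι) (x : ι → ℝ) (hx0 : ∀ i, 0 ≤ x i) (hx1 : ∀ i, x i < 1)
    (h : ∀ i, ∀ T : Finset ι, i ∉ T → Disjoint T (Γ i) →
      μ.P (fun ω => A i ω ∧ ∀ j ∈ T, ¬ A j ω)
        ≤ (x i * ∏ j ∈ Γ i, (1 - x j)) * μ.P (fun ω => ∀ j ∈ T, ¬ A j ω))
    (T : Finset ι) : ∏ j ∈ T, (1 - x j) ≤ μ.P (fun ω => ∀ j ∈ T, ¬ A j ω) := by
  -- main claim
  have key : ∀ n : ℕ, ∀ T : Finset ι, T.card = n → ∀ i, i ∉ T →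
      μ.P (fun ω => A i ω ∧ ∀ j ∈ T, ¬ A j ω) ≤ x i * μ.P (fun ω => ∀ j ∈ T, ¬ A j ω) := by
    intro n
    induction n using Nat.strong_induction_on with
    | _ n ih =>
      intro T hT i hi
      classical
      set T2 := T \ Γ i with hT2
      have hstep : ∀ S : Finset ι, S ⊆ T ∩ Γ i →
          (∏ j ∈ S, (1 - x j)) * μ.P (fun ω => ∀ j ∈ T2, ¬ A j ω)
            ≤ μ.P (fun ω => ∀ j ∈ T2 ∪ S, ¬ A j ω) := by
        intro S
        induction S using Finset.induction_on with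
        | empty => intro _; simp
        | insert a S ha ihS =>
          intro hsub
          have haT : a ∈ T ∩ Γ i := hsub (mem_insert_self _ _)
          have hS := ihS ((subset_insert _ _).trans hsub)
          have ha2 : a ∉ T2 ∪ S := by
            rw [mem_union, hT2, mem_sdiff]
            rintro (⟨_, h2⟩ | h2)
            · exact h2 (mem_inter.1 haT).2
            · exact ha h2
          have hlt : (T2 ∪ S).card < n := by
            rw [← hT]
            refine card_lt_card ⟨?_, fun hcon => ha2 (hcon (mem_inter.1 haT).1)⟩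
            refine union_subset sdiff_subset ?_
            exact ((subset_insert _ _).trans hsub).trans inter_subset_left
          have hk := ih _ hlt (T2 ∪ S) rfl a ha2
          have hsp := μ.P_split (fun ω => ∀ j ∈ T2 ∪ S, ¬ A j ω) (A a)
          have e1 : μ.P (fun ω => (∀ j ∈ T2 ∪ S, ¬ A j ω) ∧ A a ω)
              = μ.P (fun ω => A a ω ∧ ∀ j ∈ T2 ∪ S, ¬ A j ω) := μ.P_congr fun ω => and_comm
          have e2 : μ.P (fun ω => (∀ j ∈ T2 ∪ S, ¬ A j ω) ∧ ¬ A a ω)
              = μ.P (fun ω => ∀ j ∈ T2 ∪ insert a S, ¬ A j ω) := μ.P_congr fun ω => by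
            rw [union_insert]
            constructor
            · rintro ⟨h1, h2⟩ j hj
              rcases mem_insert.1 hj with rfl | hj
              · exact h2
              · exact h1 j hj
            · intro h1
              exact ⟨fun j hj => h1 j (mem_insert_of_mem hj), h1 a (mem_insert_self _ _)⟩
          rw [e1, e2] at hsp
          rw [prod_insert ha]
          have hxa := hx1 a
          nlinarith [mul_le_mul_of_nonneg_left hS (by linarith : (0 : ℝ) ≤ 1 - x a)]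
      have h1 : μ.P (fun ω => A i ω ∧ ∀ j ∈ T, ¬ A j ω)
          ≤ μ.P (fun ω => A i ω ∧ ∀ j ∈ T2, ¬ A j ω) :=
        μ.P_mono fun ω hω => ⟨hω.1, fun j hj => hω.2 j (mem_sdiff.1 hj).1⟩
      have h2 := h i T2 (fun hcon => hi (mem_sdiff.1 hcon).1) disjoint_sdiff_self_left
      have h3 := hstep (T ∩ Γ i) (Subset.refl _)
      have e3 : T2 ∪ T ∩ Γ i = T := by
        rw [hT2, union_comm]
        ext j
        simp only [mem_union, mem_inter, mem_sdiff]
        tauto
      rw [e3] at h3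
      have h4 : ∏ j ∈ Γ i, (1 - x j) ≤ ∏ j ∈ T ∩ Γ i, (1 - x j) := by
        refine prod_le_prod_of_subset_of_le_one inter_subset_right (fun j _ => ?_) fun j _ _ => ?_
        · linarith [hx1 j]
        · linarith [hx0 j]
      have hP2 := μ.P_nonneg (fun ω => ∀ j ∈ T2, ¬ A j ω)
      calc μ.P (fun ω => A i ω ∧ ∀ j ∈ T, ¬ A j ω)
          ≤ (x i * ∏ j ∈ Γ i, (1 - x j)) * μ.P (fun ω => ∀ j ∈ T2, ¬ A j ω) := h1.trans h2
        _ = x i * ((∏ j ∈ Γ i, (1 - x j)) * μ.P (fun ω => ∀ j ∈ T2, ¬ A j ω)) := by ring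
        _ ≤ x i * ((∏ j ∈ T ∩ Γ i, (1 - x j)) * μ.P (fun ω => ∀ j ∈ T2, ¬ A j ω)) :=
          mul_le_mul_of_nonneg_left (mul_le_mul_of_nonneg_right h4 hP2) (hx0 i)
        _ ≤ x i * μ.P (fun ω => ∀ j ∈ T, ¬ A j ω) := mul_le_mul_of_nonneg_left h3 (hx0 i)
  induction T using Finset.induction_on with
  | empty => simp [μ.P_true]
  | insert a T ha ih =>
    have hk := key _ T rfl a ha
    have hsp := μ.P_split (fun ω => ∀ j ∈ T, ¬ A j ω) (A a)
    have e1 : μ.P (fun ω => (∀ j ∈ T, ¬ A j ω) ∧ A a ω)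
        = μ.P (fun ω => A a ω ∧ ∀ j ∈ T, ¬ A j ω) := μ.P_congr fun ω => and_comm
    have e2 : μ.P (fun ω => (∀ j ∈ T, ¬ A j ω) ∧ ¬ A a ω)
        = μ.P (fun ω => ∀ j ∈ insert a T, ¬ A j ω) := μ.P_congr fun ω => by
      constructor
      · rintro ⟨h1, h2⟩ j hj
        rcases mem_insert.1 hj with rfl | hj
        · exact h2
        · exact h1 j hj
      · intro h1
        exact ⟨fun j hj => h1 j (mem_insert_of_mem hj), h1 a (mem_insert_self _ _)⟩
    rw [e1, e2] at hsp
    rw [prod_insert ha]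
    nlinarith [mul_le_mul_of_nonneg_left ih (by linarith [hx1 a] : (0 : ℝ) ≤ 1 - x a)]

/-- Variable version, asymmetric: `A i` depends on the coordinates in `S i`, and `Γ i` contains
every other `j` with `S j` meeting `S i`. -/
theorem Weights.lll {ι : Type*} [Fintype ι] [DecidableEq ι] (A : ι → (∀ v, α v) → Prop)
    (S : ι → Finset V) (hA : ∀ i, DependsOn (A i) (S i : Set V))
    (Γ : ι → Finset ι) (hΓ : ∀ i j, j ≠ i → ¬ Disjoint (S i) (S j) → j ∈ Γ i)
    (x : ι → ℝ) (hx0 : ∀ i, 0 ≤ x i) (hx1 : ∀ i, x i < 1)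
    (hP : ∀ i, μ.P (A i) ≤ x i * ∏ j ∈ Γ i, (1 - x j)) : ∃ ω, ∀ i, ¬ A i ω := by
  have h := μ.lll_abstract A Γ x hx0 hx1 ?_ univ
  · have hpos : 0 < ∏ j : ι, (1 - x j) := prod_pos fun j _ => by linarith [hx1 j]
    obtain ⟨ω, hω⟩ := μ.exists_of_P_pos (hpos.trans_le h)
    exact ⟨ω, fun i => hω i (mem_univ i)⟩
  · intro i T hi hdis
    have hind : μ.P (fun ω => A i ω ∧ ∀ j ∈ T, ¬ A j ω)
        = μ.P (A i) * μ.P (fun ω => ∀ j ∈ T, ¬ A j ω) := by
      refine μ.P_and_of_dependsOn (S i) (⋃ j ∈ T, (S j : Set V)) ?_ (hA i) ?_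
      · intro v hv hcon
        simp only [Set.mem_iUnion, mem_coe, exists_prop] at hcon
        obtain ⟨j, hj, hvj⟩ := hcon
        have hne : j ≠ i := fun e => hi (e ▸ hj)
        have := hΓ i j hne (not_disjoint_iff.2 ⟨v, hv, hvj⟩)
        exact (disjoint_left.1 hdis) hj this
      · intro y z hyz
        apply propext
        refine forall_congr' fun j => forall_congr' fun hj => ?_
        have : A j y = A j z := hA j fun v hv => hyz v (by
          simp only [Set.mem_iUnion, mem_coe, exists_prop]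
          exact ⟨j, hj, hv⟩)
        rw [this]
    rw [hind]
    exact mul_le_mul_of_nonneg_right (hP i) (μ.P_nonneg _)

lemma one_sub_sum_le_prod_one_sub {ι : Type*} (s : Finset ι) (y : ι → ℝ)
    (h0 : ∀ i ∈ s, 0 ≤ y i) (h1 : ∀ i ∈ s, y i ≤ 1) :
    1 - ∑ i ∈ s, y i ≤ ∏ i ∈ s, (1 - y i) := by
  classical
  induction s using Finset.induction_on with
  | empty => simp
  | insert a s ha ih =>
    rw [sum_insert ha, prod_insert ha]
    have ih' := ih (fun i hi => h0 i (mem_insert_of_mem hi)) fun i hi =>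
      h1 i (mem_insert_of_mem hi)
    have hya := h0 a (mem_insert_self _ _)
    have hya1 := h1 a (mem_insert_self _ _)
    have hs : 0 ≤ ∑ i ∈ s, y i := sum_nonneg fun i hi => h0 i (mem_insert_of_mem hi)
    nlinarith [mul_le_mul_of_nonneg_left ih' (by linarith : (0 : ℝ) ≤ 1 - y a),
      mul_nonneg hya hs]

/-- Asymmetric local lemma in the form: the probabilities of the neighbours of every event add up
to at most one quarter. -/
theorem Weights.lll_sum {ι : Type*} [Fintype ι] [DecidableEq ι] (A : ι → (∀ v, α v) → Prop)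
    (S : ι → Finset V) (hA : ∀ i, DependsOn (A i) (S i : Set V))
    (Γ : ι → Finset ι) (hΓ : ∀ i j, j ≠ i → ¬ Disjoint (S i) (S j) → j ∈ Γ i)
    (p : ι → ℝ) (hp : ∀ i, μ.P (A i) ≤ p i) (hp2 : ∀ i, p i < 1 / 2)
    (hsum : ∀ i, ∑ j ∈ Γ i, p j ≤ 1 / 4) : ∃ ω, ∀ i, ¬ A i ω := by
  have hp0 : ∀ i, 0 ≤ p i := fun i => (μ.P_nonneg _).trans (hp i)
  refine μ.lll A S hA Γ hΓ (fun i => 2 * p i) (fun i => by linarith [hp0 i])
    (fun i => by linarith [hp2 i]) fun i => ?_
  have h1 : 1 - ∑ j ∈ Γ i, 2 * p j ≤ ∏ j ∈ Γ i, (1 - 2 * p j) :=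
    one_sub_sum_le_prod_one_sub _ _ (fun j _ => by linarith [hp0 j])
      fun j _ => by linarith [hp2 j]
  rw [← mul_sum] at h1
  have h2 : (1 : ℝ) / 2 ≤ ∏ j ∈ Γ i, (1 - 2 * p j) := by linarith [hsum i]
  nlinarith [hp i, hp0 i, mul_le_mul_of_nonneg_left h2 (hp0 i)]

/-- Symmetric local lemma: every event has probability at most `p`, its coordinate set meets the
coordinate sets of at most `d` others, and `4 * p * d ≤ 1`, `p ≤ 1 / 4`. -/
theorem Weights.lll_symm {ι : Type*} [Fintype ι] (A : ι → (∀ v, α v) → Prop)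
    (S : ι → Finset V) (hA : ∀ i, DependsOn (A i) (S i : Set V)) (p : ℝ) (d : ℕ)
    (hp : ∀ i, μ.P (A i) ≤ p) (hp4 : p ≤ 1 / 4) (hd : 4 * p * d ≤ 1)
    (hcard : ∀ i, {j : ι | j ≠ i ∧ ¬ Disjoint (S i) (S j)}.ncard ≤ d) : ∃ ω, ∀ i, ¬ A i ω := by
  classical
  by_cases hι : Nonempty ι
  · obtain ⟨i₀⟩ := hι
    have hp0 : 0 ≤ p := (μ.P_nonneg _).trans (hp i₀)
    refine μ.lll_sum A S hA (fun i => univ.filter fun j => j ≠ i ∧ ¬ Disjoint (S i) (S j))
      (fun i j h1 h2 => mem_filter.2 ⟨mem_univ j, h1, h2⟩) (fun _ => p) hp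
      (fun _ => by linarith) fun i => ?_
    rw [sum_const, nsmul_eq_mul]
    have hc : ((univ.filter fun j => j ≠ i ∧ ¬ Disjoint (S i) (S j)).card : ℝ) ≤ d := by
      have h1 := hcard i
      have h2 : {j : ι | j ≠ i ∧ ¬ Disjoint (S i) (S j)}
          = ((univ.filter fun j => j ≠ i ∧ ¬ Disjoint (S i) (S j) : Finset ι) : Set ι) := by
        ext j
        simp
      rw [h2, Set.ncard_coe_finset] at h1
      exact Nat.cast_le.2 h1
    nlinarith [mul_le_mul_of_nonneg_right hc hp0]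
  · have hempty := not_nonempty_iff.1 hι
    have : ∃ ω : (∀ v, α v), (fun _ => True) ω := by
      refine μ.exists_of_P_pos (A := fun _ => True) ?_
      rw [μ.P_true]
      norm_num
    obtain ⟨ω, _⟩ := this
    exact ⟨ω, fun i => (hempty.false i).elim⟩

end Pool.Agent.Lib.Prob48
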