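import Mathlib

/-!
Finite weighted product spaces: expectation, probability, resampling of one coordinate,
independence of functions that depend on disjoint sets of coordinates.

The space is `Ω = ∀ v : V, α v` with `V` and all `α v` finite, and coordinate `v` has the weights
`μ v : α v → ℝ` (non-negative, total mass one).
-/

set_option autoImplicit false
set_option linter.unusedSectionVars false

namespace Pool.Agent.Lib.Prob48

open Finset

variable {V : Type*} [Fintype V] [DecidableEq V] {α : V → Type*} [∀ v, Fintype (α v)]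

/-- Weights of a finite product probability space. -/
structure Weights (α : V → Type*) [∀ v, Fintype (α v)] where
  /-- the weight of the value `a` in coordinate `v` -/
  w : ∀ v, α v → ℝ
  /-- weights are non-negative -/
  nonneg : ∀ v a, 0 ≤ w v a
  /-- weights sum to one -/
  sum_one : ∀ v, ∑ a, w v a = 1

variable (μ : Weights α)

/-- The weight of an outcome. -/
noncomputable def Weights.pw (ω : ∀ v, α v) : ℝ := ∏ v, μ.w v (ω v)

/-- Expectation. -/
noncomputable def Weights.E (f : (∀ v, α v) → ℝ) : ℝ := ∑ ω, μ.pw ω * f ω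

open Classical in
/-- Probability of a predicate. -/
noncomputable def Weights.P (A : (∀ v, α v) → Prop) : ℝ := μ.E fun ω => if A ω then 1 else 0

/-- Resampling of one coordinate. -/
noncomputable def Weights.avg (v : V) (f : (∀ v, α v) → ℝ) (ω : ∀ v, α v) : ℝ :=
  ∑ a, μ.w v a * f (Function.update ω v a)

lemma Weights.pw_nonneg (ω : ∀ v, α v) : 0 ≤ μ.pw ω :=
  prod_nonneg fun v _ => μ.nonneg v (ω v)

lemma Weights.sum_pw : ∑ ω, μ.pw ω = 1 := by
  unfold Weights.pw
  rw [← Fintype.piFinset_univ, ← prod_univ_sum]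
  simp [μ.sum_one]

lemma Weights.E_const (c : ℝ) : μ.E (fun _ => c) = c := by
  unfold Weights.E
  rw [← sum_mul, μ.sum_pw, one_mul]

lemma Weights.E_mono {f g : (∀ v, α v) → ℝ} (h : ∀ ω, f ω ≤ g ω) : μ.E f ≤ μ.E g :=
  sum_le_sum fun ω _ => mul_le_mul_of_nonneg_left (h ω) (μ.pw_nonneg ω)

lemma Weights.E_nonneg {f : (∀ v, α v) → ℝ} (h : ∀ ω, 0 ≤ f ω) : 0 ≤ μ.E f :=
  sum_nonneg fun ω _ => mul_nonneg (μ.pw_nonneg ω) (h ω)

lemma Weights.E_add (f g : (∀ v, α v) → ℝ) : μ.E (fun ω => f ω + g ω) = μ.E f + μ.E g := by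
  unfold Weights.E
  rw [← sum_add_distrib]
  exact sum_congr rfl fun ω _ => by ring

lemma Weights.E_sub (f g : (∀ v, α v) → ℝ) : μ.E (fun ω => f ω - g ω) = μ.E f - μ.E g := by
  unfold Weights.E
  rw [← sum_sub_distrib]
  exact sum_congr rfl fun ω _ => by ring

lemma Weights.E_mul_left (c : ℝ) (f : (∀ v, α v) → ℝ) :
    μ.E (fun ω => c * f ω) = c * μ.E f := by
  unfold Weights.E
  rw [mul_sum]
  exact sum_congr rfl fun ω _ => by ring

lemma Weights.E_mul_right (c : ℝ) (f : (∀ v, α v) → ℝ) :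
    μ.E (fun ω => f ω * c) = μ.E f * c := by
  unfold Weights.E
  rw [sum_mul]
  exact sum_congr rfl fun ω _ => by ring

lemma Weights.E_sum {ι : Type*} (s : Finset ι) (f : ι → (∀ v, α v) → ℝ) :
    μ.E (fun ω => ∑ i ∈ s, f i ω) = ∑ i ∈ s, μ.E (f i) := by
  unfold Weights.E
  rw [sum_comm]
  exact sum_congr rfl fun ω _ => by rw [mul_sum]

lemma Weights.P_nonneg (A : (∀ v, α v) → Prop) : 0 ≤ μ.P A :=
  μ.E_nonneg fun ω => by split_ifs <;> norm_num

lemma Weights.P_mono {A B : (∀ v, α v) → Prop} (h : ∀ ω, A ω → B ω) : μ.P A ≤ μ.P B := by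
  classical
  refine μ.E_mono fun ω => ?_
  by_cases hA : A ω
  · simp [hA, h ω hA]
  · by_cases hB : B ω <;> simp [hA, hB]

lemma Weights.P_congr {A B : (∀ v, α v) → Prop} (h : ∀ ω, A ω ↔ B ω) : μ.P A = μ.P B :=
  le_antisymm (μ.P_mono fun ω => (h ω).1) (μ.P_mono fun ω => (h ω).2)

lemma Weights.P_true : μ.P (fun _ => True) = 1 := by
  unfold Weights.P
  simpa using μ.E_const 1

lemma Weights.P_false : μ.P (fun _ => False) = 0 := by
  unfold Weights.P
  simpa using μ.E_const 0

lemma Weights.P_le_one (A : (∀ v, α v) → Prop) : μ.P A ≤ 1 := by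
  rw [← μ.P_true]
  exact μ.P_mono fun _ _ => trivial

/-- Splitting an event according to another one. -/
lemma Weights.P_split (A B : (∀ v, α v) → Prop) :
    μ.P A = μ.P (fun ω => A ω ∧ B ω) + μ.P (fun ω => A ω ∧ ¬ B ω) := by
  classical
  unfold Weights.P
  rw [← μ.E_add]
  congr 1
  funext ω
  by_cases hA : A ω <;> by_cases hB : B ω <;> simp [hA, hB]

lemma Weights.P_not (A : (∀ v, α v) → Prop) : μ.P (fun ω => ¬ A ω) = 1 - μ.P A := by
  have h := μ.P_split (fun _ => True) A
  rw [μ.P_true] at h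
  have e1 : μ.P (fun ω => True ∧ A ω) = μ.P A := μ.P_congr fun ω => by simp
  have e2 : μ.P (fun ω => True ∧ ¬ A ω) = μ.P (fun ω => ¬ A ω) := μ.P_congr fun ω => by simp
  rw [e1, e2] at h
  linarith

lemma Weights.P_or_le (A B : (∀ v, α v) → Prop) :
    μ.P (fun ω => A ω ∨ B ω) ≤ μ.P A + μ.P B := by
  classical
  unfold Weights.P
  rw [← μ.E_add]
  refine μ.E_mono fun ω => ?_
  by_cases hA : A ω <;> by_cases hB : B ω <;> simp [hA, hB]

/-- Union bound. -/
lemma Weights.P_exists_le {ι : Type*} (s : Finset ι) (A : ι → (∀ v, α v) → Prop) :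
    μ.P (fun ω => ∃ i ∈ s, A i ω) ≤ ∑ i ∈ s, μ.P (A i) := by
  classical
  unfold Weights.P
  rw [← μ.E_sum]
  refine μ.E_mono fun ω => ?_
  by_cases h : ∃ i ∈ s, A i ω
  · obtain ⟨i, hi, hA⟩ := h
    rw [if_pos ⟨i, hi, hA⟩]
    calc (1 : ℝ) = (if A i ω then 1 else 0) := by simp [hA]
      _ ≤ ∑ i ∈ s, (if A i ω then (1 : ℝ) else 0) :=
        single_le_sum (f := fun i => if A i ω then (1 : ℝ) else 0)
          (fun j _ => by positivity) hi
  · rw [if_neg h]
    exact sum_nonneg fun j _ => by positivity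

/-- Markov inequality for exponential moments and more general non-negative functions. -/
lemma Weights.P_le_of_le {A : (∀ v, α v) → Prop} {f : (∀ v, α v) → ℝ} (c : ℝ) (hc : 0 < c)
    (hf : ∀ ω, 0 ≤ f ω) (h : ∀ ω, A ω → c ≤ f ω) : μ.P A ≤ μ.E f / c := by
  classical
  rw [le_div_iff₀ hc]
  unfold Weights.P
  rw [← μ.E_mul_right]
  refine μ.E_mono fun ω => ?_
  by_cases hA : A ω
  · simpa [hA] using h ω hA
  · simpa [hA] using hf ω

lemma Weights.exists_of_P_pos {A : (∀ v, α v) → Prop} (h : 0 < μ.P A) : ∃ ω, A ω := by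
  by_contra hcon
  push Not at hcon
  have : μ.P A ≤ μ.P (fun _ => False) := μ.P_mono fun ω hA => hcon ω hA
  rw [μ.P_false] at this
  linarith

/-- Only outcomes of positive weight matter. -/
lemma Weights.P_mono' {A B : (∀ v, α v) → Prop} (h : ∀ ω, 0 < μ.pw ω → A ω → B ω) :
    μ.P A ≤ μ.P B := by
  classical
  unfold Weights.P Weights.E
  refine sum_le_sum fun ω _ => ?_
  rcases (μ.pw_nonneg ω).eq_or_lt with h0 | h0
  · simp [← h0]
  · by_cases hA : A ω
    · simp [hA, h ω h0 hA]
    · have : 0 ≤ μ.pw ω * (if B ω then (1 : ℝ) else 0) := by positivity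
      simpa [hA] using this

lemma Weights.pw_update (v : V) (ω : ∀ v, α v) (a : α v) :
    μ.pw ω * μ.w v a = μ.pw (Function.update ω v a) * μ.w v (ω v) := by
  unfold Weights.pw
  rw [← mul_prod_erase univ (fun u => μ.w u (ω u)) (mem_univ v),
    ← mul_prod_erase univ (fun u => μ.w u (Function.update ω v a u)) (mem_univ v)]
  have h : ∏ u ∈ univ.erase v, μ.w u (Function.update ω v a u)
      = ∏ u ∈ univ.erase v, μ.w u (ω u) := by
    refine prod_congr rfl fun u hu => ?_
    rw [Function.update_of_ne (ne_of_mem_erase hu)]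
  rw [h, Function.update_self]
  ring

/-- Resampling a coordinate does not change expectations. -/
lemma Weights.E_avg (v : V) (f : (∀ v, α v) → ℝ) : μ.E (μ.avg v f) = μ.E f := by
  classical
  unfold Weights.E Weights.avg
  simp_rw [mul_sum]
  have hinv : Function.Involutive
      (fun p : (∀ v, α v) × α v => (Function.update p.1 v p.2, p.1 v)) := by
    rintro ⟨ω, a⟩
    simp
  calc ∑ ω, ∑ a, μ.pw ω * (μ.w v a * f (Function.update ω v a))
      = ∑ p : (∀ v, α v) × α v, μ.pw (Function.update p.1 v p.2) * μ.w v (p.1 v)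
          * f (Function.update p.1 v p.2) := by
        rw [← univ_product_univ, sum_product]
        refine sum_congr rfl fun ω _ => sum_congr rfl fun a _ => ?_
        rw [← μ.pw_update v ω a]
        ring
    _ = ∑ p : (∀ v, α v) × α v, μ.pw p.1 * μ.w v p.2 * f p.1 :=
        Equiv.sum_comp hinv.toPerm (fun p : (∀ v, α v) × α v => μ.pw p.1 * μ.w v p.2 * f p.1)
    _ = ∑ ω, μ.pw ω * f ω := by
        rw [← univ_product_univ, sum_product]
        refine sum_congr rfl fun ω _ => ?_
        show ∑ a, μ.pw ω * μ.w v a * f ω = μ.pw ω * f ω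
        rw [← sum_mul, ← mul_sum, μ.sum_one, mul_one]

lemma Weights.avg_const (v : V) (c : ℝ) (ω : ∀ v, α v) : μ.avg v (fun _ => c) ω = c := by
  unfold Weights.avg
  rw [← sum_mul, μ.sum_one, one_mul]

lemma Weights.avg_mono (v : V) {f g : (∀ v, α v) → ℝ} (h : ∀ ω, f ω ≤ g ω) (ω : ∀ v, α v) :
    μ.avg v f ω ≤ μ.avg v g ω :=
  sum_le_sum fun a _ => mul_le_mul_of_nonneg_left (h _) (μ.nonneg v a)

lemma dependsOn_update {β : Type*} {f : (∀ v, α v) → β} {S : Set V} (hf : DependsOn f S) {v : V}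
    (hv : v ∉ S) (ω : ∀ v, α v) (a : α v) : f (Function.update ω v a) = f ω := by
  refine hf fun u hu => ?_
  rw [Function.update_of_ne]
  rintro rfl
  exact hv hu

lemma Weights.avg_mul_of_dependsOn (v : V) {f g : (∀ v, α v) → ℝ} {T : Set V}
    (hg : DependsOn g T) (hv : v ∉ T) (ω : ∀ v, α v) :
    μ.avg v (fun ω => f ω * g ω) ω = μ.avg v f ω * g ω := by
  unfold Weights.avg
  rw [sum_mul]
  refine sum_congr rfl fun a _ => ?_
  have h := dependsOn_update hg hv ω a
  show μ.w v a * (f (Function.update ω v a) * g (Function.update ω v a)) = _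
  rw [h]
  ring

lemma Weights.avg_dependsOn {v : V} {f : (∀ v, α v) → ℝ} {S : Set V}
    (hf : DependsOn f (insert v S)) : DependsOn (μ.avg v f) S := by
  intro x y hxy
  unfold Weights.avg
  refine sum_congr rfl fun a _ => ?_
  congr 1
  refine hf fun u hu => ?_
  by_cases huv : u = v
  · subst huv
    simp
  · rw [Function.update_of_ne huv, Function.update_of_ne huv]
    exact hxy u (hu.resolve_left huv)

/-- Functions of disjoint sets of coordinates are independent. -/
theorem Weights.E_mul_of_dependsOn (S : Finset V) (T : Set V) (hST : ∀ v ∈ S, v ∉ T)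
    {f g : (∀ v, α v) → ℝ} (hf : DependsOn f (S : Set V)) (hg : DependsOn g T) :
    μ.E (fun ω => f ω * g ω) = μ.E f * μ.E g := by
  induction S using Finset.induction_on generalizing f with
  | empty =>
    by_cases hne : Nonempty (∀ v, α v)
    · obtain ⟨ω₀⟩ := hne
      have hc : ∀ ω, f ω = f ω₀ := fun ω => hf fun v hv => by simp at hv
      have e1 : (fun ω => f ω * g ω) = fun ω => f ω₀ * g ω := by
        funext ω
        rw [hc ω]
      have e2 : f = fun _ => f ω₀ := funext hc
      rw [e1, μ.E_mul_left]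
      conv_rhs => rw [e2]
      rw [μ.E_const]
    · have := not_nonempty_iff.1 hne
      simp [Weights.E]
  | insert v S hv ih =>
    have h1 : μ.E (fun ω => f ω * g ω) = μ.E (fun ω => μ.avg v f ω * g ω) := by
      rw [← μ.E_avg v]
      congr 1
      funext ω
      exact μ.avg_mul_of_dependsOn v hg (hST v (mem_insert_self _ _)) ω
    rw [h1, ih (fun u hu => hST u (mem_insert_of_mem hu))
      (μ.avg_dependsOn (by simpa using hf)), μ.E_avg]

/-- Independent events. -/
theorem Weights.P_and_of_dependsOn (S : Finset V) (T : Set V) (hST : ∀ v ∈ S, v ∉ T)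
    {A B : (∀ v, α v) → Prop} (hA : DependsOn A (S : Set V)) (hB : DependsOn B T) :
    μ.P (fun ω => A ω ∧ B ω) = μ.P A * μ.P B := by
  classical
  unfold Weights.P
  rw [← μ.E_mul_of_dependsOn S T hST]
  · congr 1
    funext ω
    by_cases h1 : A ω <;> by_cases h2 : B ω <;> simp [h1, h2]
  · intro x y hxy
    have := hA hxy
    simp only [this]
  · intro x y hxy
    have := hB hxy
    simp only [this]

end Pool.Agent.Lib.Prob48
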